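import Pool.Agent.MP_ed9623_an.H77.SpecA

/-! The doubled system. -/

open scoped InnerProductSpace

namespace Pool.Agent.MP_ed9623_an.H77

namespace Dbl

variable {V W : Type} [NormedAddCommGroup V] [InnerProductSpace ℝ V]
  [NormedAddCommGroup W] [InnerProductSpace ℝ W]

/-- First coordinate. -/
noncomputable def p1 (V : Type) [NormedAddCommGroup V] [InnerProductSpace ℝ V] :
    WithLp 2 (V × V) →L[ℝ] V :=
  (ContinuousLinearMap.fst ℝ V V).comp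
    (WithLp.prodContinuousLinearEquiv 2 ℝ V V : WithLp 2 (V × V) →L[ℝ] V × V)

/-- Second coordinate. -/
noncomputable def p2 (V : Type) [NormedAddCommGroup V] [InnerProductSpace ℝ V] :
    WithLp 2 (V × V) →L[ℝ] V :=
  (ContinuousLinearMap.snd ℝ V V).comp
    (WithLp.prodContinuousLinearEquiv 2 ℝ V V : WithLp 2 (V × V) →L[ℝ] V × V)

/-- First inclusion. -/
noncomputable def i1 (V : Type) [NormedAddCommGroup V] [InnerProductSpace ℝ V] :
    V →L[ℝ] WithLp 2 (V × V) :=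
  ((WithLp.prodContinuousLinearEquiv 2 ℝ V V).symm : V × V →L[ℝ] WithLp 2 (V × V)).comp
    (ContinuousLinearMap.inl ℝ V V)

/-- Second inclusion. -/
noncomputable def i2 (V : Type) [NormedAddCommGroup V] [InnerProductSpace ℝ V] :
    V →L[ℝ] WithLp 2 (V × V) :=
  ((WithLp.prodContinuousLinearEquiv 2 ℝ V V).symm : V × V →L[ℝ] WithLp 2 (V × V)).comp
    (ContinuousLinearMap.inr ℝ V V)

/-- Diagonal map. -/
noncomputable def dg (A : V →L[ℝ] W) : WithLp 2 (V × V) →L[ℝ] WithLp 2 (W × W) :=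
  (i1 W).comp (A.comp (p1 V)) + (i2 W).comp (A.comp (p2 V))

/-- The doubled bilinear map. -/
noncomputable def bb (B : V →L[ℝ] V →L[ℝ] V) :
    WithLp 2 (V × V) →L[ℝ] WithLp 2 (V × V) →L[ℝ] WithLp 2 (V × V) :=
  (ContinuousLinearMap.compL ℝ (WithLp 2 (V × V)) V (WithLp 2 (V × V)) (i1 V)).comp
      (B.bilinearComp (p1 V) (p1 V)) +
    (ContinuousLinearMap.compL ℝ (WithLp 2 (V × V)) V (WithLp 2 (V × V)) (i2 V)).comp
      (B.bilinearComp (p1 V) (p2 V) + B.bilinearComp (p2 V) (p1 V))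

theorem i12 (a b : V) : i1 V a + i2 V b = WithLp.toLp 2 (a, b) := by
  change WithLp.toLp 2 (a, 0) + WithLp.toLp 2 (0, b) = _
  rw [← WithLp.toLp_add]
  simp

theorem dg_apply (A : V →L[ℝ] W) (u y : V) :
    dg A (WithLp.toLp 2 (u, y)) = WithLp.toLp 2 (A u, A y) := i12 _ _

theorem bb_apply (B : V →L[ℝ] V →L[ℝ] V) (u z v y : V) :
    bb B (WithLp.toLp 2 (u, z)) (WithLp.toLp 2 (v, y)) =
      WithLp.toLp 2 (B u v, B u y + B z v) := i12 _ _

theorem nsq (u y : V) : ‖(WithLp.toLp 2 (u, y) : WithLp 2 (V × V))‖ ^ 2 = ‖u‖ ^ 2 + ‖y‖ ^ 2 :=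
  WithLp.prod_norm_sq_eq_of_L2 _

theorem le1 (u y : V) : ‖u‖ ≤ ‖(WithLp.toLp 2 (u, y) : WithLp 2 (V × V))‖ :=
  (pow_le_pow_iff_left₀ (norm_nonneg _) (norm_nonneg _) two_ne_zero).1 (by
    rw [nsq]; exact le_add_of_nonneg_right (sq_nonneg _))

theorem le2 (u y : V) : ‖y‖ ≤ ‖(WithLp.toLp 2 (u, y) : WithLp 2 (V × V))‖ :=
  (pow_le_pow_iff_left₀ (norm_nonneg _) (norm_nonneg _) two_ne_zero).1 (by
    rw [nsq]; exact le_add_of_nonneg_left (sq_nonneg _))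

theorem inn (u y a b : V) :
    ⟪(WithLp.toLp 2 (u, y) : WithLp 2 (V × V)), WithLp.toLp 2 (a, b)⟫_ℝ = ⟪u, a⟫_ℝ + ⟪y, b⟫_ℝ :=
  WithLp.prod_inner_apply _ _

theorem lad_le (S : St W V) (u v : V) {a b c d : ℝ} (ha : ‖S.ι u‖ ≤ a) (hb : ‖u‖ ≤ b)
    (hc : ‖S.ι v‖ ≤ c) (hd : ‖v‖ ≤ d) : ‖S.B u v‖ ^ 2 ≤ S.C * (a * b * (c * d)) := by
  refine (S.lad u v).trans (mul_le_mul_of_nonneg_left ?_ S.C0)
  have h0 := (norm_nonneg _).trans ha
  have h1 := (norm_nonneg _).trans hb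
  have h2 := (norm_nonneg _).trans hc
  gcongr

/-- The doubled data. -/
noncomputable def st (S : St W V) : St (WithLp 2 (W × W)) (WithLp 2 (V × V)) where
  ι := dg S.ι
  A := dg S.A
  B := bb S.B
  γ := WithLp.toLp 2 (S.γ, 0)
  c := S.c
  C := 5 * S.C
  inj := by
    rintro ⟨u, y⟩ ⟨v, z⟩ h
    rw [dg_apply, dg_apply] at h
    have h' := congrArg WithLp.ofLp h
    simp only [Prod.mk.injEq] at h'
    rw [S.inj h'.1, S.inj h'.2]
  c0 := S.c0
  C0 := mul_nonneg (by norm_num) S.C0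
  coer := by
    rintro ⟨u, y⟩
    rw [dg_apply, nsq, inn, mul_add]
    exact add_le_add (S.coer u) (S.coer y)
  lad := by
    rintro ⟨u, z⟩ ⟨v, y⟩
    rw [bb_apply, dg_apply, dg_apply, nsq]
    have e1 := lad_le S u v (le1 _ (S.ι z)) (le1 _ z) (le1 _ (S.ι y)) (le1 _ y)
    have e2 := lad_le S u y (le1 _ (S.ι z)) (le1 _ z) (le2 (S.ι v) _) (le2 v _)
    have e3 := lad_le S z v (le2 (S.ι u) _) (le2 u _) (le1 _ (S.ι y)) (le1 _ y)
    have e4 : ‖S.B u y + S.B z v‖ ^ 2 ≤ (‖S.B u y‖ + ‖S.B z v‖) ^ 2 :=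
      pow_le_pow_left₀ (norm_nonneg _) (norm_add_le _ _) 2
    nlinarith [sq_nonneg (‖S.B u y‖ - ‖S.B z v‖)]

end Dbl

open Dbl in
theorem dbl : OfDbl := by
  intro H V _ _ _ _ _ _ S
  refine ⟨st S, fun u y => dg_apply _ _ _, fun a b => ?_, fun u y => ?_⟩
  · refine ext_inner_right ℝ ?_
    rintro ⟨u, y⟩
    rw [adj_inner]
    change ⟪_, dg S.ι _⟫_ℝ = _
    rw [dg_apply, inn, inn, adj_inner, adj_inner]
  · change WithLp.toLp 2 (S.γ, 0) - dg S.A _ - bb S.B _ _ = _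
    rw [dg_apply, bb_apply, ← WithLp.toLp_sub, ← WithLp.toLp_sub, St.G, St.G']
    congr 1
    ext
    · simp
    · simp only [Prod.snd_sub]
      abel

end Pool.Agent.MP_ed9623_an.H77
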